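import Pool.Agent.Helper93.KS.St2

/-!
# Project KS, module LSC: multiplicative large sieve for powers of prime sums
-/

set_option autoImplicit false

noncomputable section

namespace Pool.Agent.Helper70.KS

open Finset Filter Topology Pool.Agent.Helper93.KS
open Pool.Agent.Helper15.AB (SP StML)
open Pool.Agent.Helper9.TW (gm)
open Pool.Agent.Helper93.KP (gk vk tk rn gn TK qk StRTS)

/-- the tuples -/
private def TT (S : Finset ℕ) (m : ℕ) : Finset (Fin m → ℕ) := Fintype.piFinset (fun _ : Fin m => S)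

/-- the coefficients -/
private def cf (S : Finset ℕ) (m M : ℕ) : ℝ := (((TT S m).filter (fun t => ∏ i, t i = M)).card : ℝ) / M

private theorem SP_nonneg (G : (ℕ → ℂ) → ℝ) (hG : ∀ x, 0 ≤ G x) (r : ℕ) : 0 ≤ SP G r := by
  unfold SP
  split_ifs with h
  · exact le_refl 0
  · exact Finset.sum_nonneg fun ψ _ => hG _

private theorem fib_card (S : Finset ℕ) (m M : ℕ) (hS : ∀ p ∈ S, p.Prime) :
    ((TT S m).filter (fun t => ∏ i, t i = M)).card ≤ m ^ m := by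
  rcases Finset.eq_empty_or_nonempty ((TT S m).filter (fun t => ∏ i, t i = M)) with h | ⟨t0, h0⟩
  · rw [h]; simp
  · obtain ⟨h1, h2⟩ := Finset.mem_filter.1 h0
    have h1' : ∀ i, t0 i ∈ S := Fintype.mem_piFinset.1 h1
    have hsub : (TT S m).filter (fun t => ∏ i, t i = M) ⊆
        Fintype.piFinset (fun _ : Fin m => (Finset.univ : Finset (Fin m)).image t0) := by
      intro t ht
      obtain ⟨h3, h4⟩ := Finset.mem_filter.1 ht
      have h3' : ∀ i, t i ∈ S := Fintype.mem_piFinset.1 h3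
      refine Fintype.mem_piFinset.2 fun i => ?_
      have hd : t i ∣ ∏ j, t0 j := by
        rw [h2, ← h4]
        exact Finset.dvd_prod_of_mem _ (Finset.mem_univ i)
      obtain ⟨j, _, hj⟩ := ((hS _ (h3' i)).prime.dvd_finsetProd_iff _).1 hd
      have he := (Nat.prime_dvd_prime_iff_eq (hS _ (h3' i)) (hS _ (h1' j))).1 hj
      exact Finset.mem_image.2 ⟨j, Finset.mem_univ j, he.symm⟩
    refine (Finset.card_le_card hsub).trans ?_
    rw [Fintype.card_piFinset]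
    simp only [Finset.prod_const, Finset.card_univ, Fintype.card_fin]
    exact Nat.pow_le_pow_left (Finset.card_image_le.trans (by simp)) m

private theorem expand (S : Finset ℕ) (m X : ℕ) (x : ℕ → ℂ) (hx1 : x 1 = 1)
    (hx : ∀ a b, x (a * b) = x a * x b) (hX : ∀ t ∈ TT S m, ∏ i, t i ∈ Ioc 0 X) :
    (∑ p ∈ S, x p / p) ^ m = ∑ M ∈ Ioc 0 X, ((cf S m M : ℝ) : ℂ) * x M := by
  have hprod : ∀ t : Fin m → ℕ, x (∏ i, t i) = ∏ i, x (t i) := by
    intro t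
    let φ : ℕ →* ℂ := { toFun := x, map_one' := hx1, map_mul' := hx }
    exact map_prod φ t Finset.univ
  have e1 : (∑ p ∈ S, x p / p) ^ m = ∑ t ∈ TT S m, ∏ i, (x (t i) / (t i : ℂ)) := by
    have := (Finset.prod_univ_sum (fun _ : Fin m => S) (fun (_ : Fin m) (p : ℕ) => x p / (p : ℂ)))
    rw [← show (∏ _i : Fin m, ∑ p ∈ S, x p / (p : ℂ)) = (∑ p ∈ S, x p / (p : ℂ)) ^ m by simp]
    exact this
  rw [e1]
  have e2 : ∀ t ∈ TT S m, (∏ i, (x (t i) / (t i : ℂ))) = x (∏ i, t i) / ((∏ i, t i : ℕ) : ℂ) := by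
    intro t _
    rw [Finset.prod_div_distrib, hprod, Nat.cast_prod]
  rw [Finset.sum_congr rfl e2, ← Finset.sum_fiberwise_of_maps_to hX]
  refine Finset.sum_congr rfl fun M _ => ?_
  rw [Finset.sum_congr rfl (g := fun _ => x M / (M : ℂ))
    (fun t ht => by rw [(Finset.mem_filter.1 ht).2])]
  rw [Finset.sum_const, nsmul_eq_mul, cf]
  push_cast
  ring

private theorem sq_sum (S : Finset ℕ) (m X : ℕ) (y : ℝ) (hy : 2 ≤ y)
    (hS : ∀ p ∈ S, p.Prime ∧ y ≤ (p : ℝ) ∧ (p : ℝ) < 2 * y) (hX : ∀ t ∈ TT S m, ∏ i, t i ∈ Ioc 0 X) :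
    ∑ M ∈ Ioc 0 X, cf S m M ^ 2 ≤ (m : ℝ) ^ m * (2 / y) ^ m := by
  have hy0 : 0 < y := by linarith
  have hfib := fib_card S m
  have e1 : ∑ M ∈ Ioc 0 X, cf S m M ^ 2 ≤
      ∑ M ∈ Ioc 0 X, ∑ t ∈ (TT S m).filter (fun t => ∏ i, t i = M), (m : ℝ) ^ m * (1 / ((∏ i, t i : ℕ) : ℝ) ^ 2) := by
    refine Finset.sum_le_sum fun M _ => ?_
    rw [Finset.sum_congr rfl (g := fun _ => (m : ℝ) ^ m * (1 / (M : ℝ) ^ 2))
      (fun t ht => by rw [(Finset.mem_filter.1 ht).2])]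
    rw [Finset.sum_const, nsmul_eq_mul, cf, div_pow]
    have h1 : (((TT S m).filter (fun t => ∏ i, t i = M)).card : ℝ) ≤ (m : ℝ) ^ m := by
      exact_mod_cast hfib M (fun p hp => (hS p hp).1)
    have h2 : (0 : ℝ) ≤ (((TT S m).filter (fun t => ∏ i, t i = M)).card : ℝ) := Nat.cast_nonneg _
    have h3 : (0 : ℝ) ≤ 1 / (M : ℝ) ^ 2 := by positivity
    have h4 : (((TT S m).filter (fun t => ∏ i, t i = M)).card : ℝ) ^ 2 ≤
        (((TT S m).filter (fun t => ∏ i, t i = M)).card : ℝ) * (m : ℝ) ^ m := by nlinarith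
    calc (((TT S m).filter (fun t => ∏ i, t i = M)).card : ℝ) ^ 2 / (M : ℝ) ^ 2
        = (((TT S m).filter (fun t => ∏ i, t i = M)).card : ℝ) ^ 2 * (1 / (M : ℝ) ^ 2) := by ring
      _ ≤ ((((TT S m).filter (fun t => ∏ i, t i = M)).card : ℝ) * (m : ℝ) ^ m) * (1 / (M : ℝ) ^ 2) :=
          mul_le_mul_of_nonneg_right h4 h3
      _ = _ := by ring
  refine e1.trans ?_
  rw [Finset.sum_fiberwise_of_maps_to hX (fun t => (m : ℝ) ^ m * (1 / ((∏ i, t i : ℕ) : ℝ) ^ 2)),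
    ← Finset.mul_sum]
  refine mul_le_mul_of_nonneg_left ?_ (by positivity)
  have e2 : ∑ t ∈ TT S m, (1 / ((∏ i, t i : ℕ) : ℝ) ^ 2) = (∑ p ∈ S, 1 / (p : ℝ) ^ 2) ^ m := by
    have := (Finset.prod_univ_sum (fun _ : Fin m => S) (fun (_ : Fin m) (p : ℕ) => 1 / (p : ℝ) ^ 2))
    rw [show (∏ _i : Fin m, ∑ p ∈ S, 1 / (p : ℝ) ^ 2) = (∑ p ∈ S, 1 / (p : ℝ) ^ 2) ^ m by simp] at this
    rw [this]
    refine Finset.sum_congr rfl fun t _ => ?_
    rw [Nat.cast_prod, ← Finset.prod_pow]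
    rw [Finset.prod_div_distrib]
    simp
  rw [e2]
  refine pow_le_pow_left₀ (Finset.sum_nonneg fun p _ => by positivity) ?_ m
  have hcard : (S.card : ℝ) ≤ 2 * y := by
    have hs : S ⊆ Ioc 0 ⌊2 * y⌋₊ := by
      intro p hp
      obtain ⟨h1, h2, h3⟩ := hS p hp
      exact Finset.mem_Ioc.2 ⟨h1.pos, Nat.le_floor h3.le⟩
    have h1 := Finset.card_le_card hs
    rw [Nat.card_Ioc] at h1
    calc (S.card : ℝ) ≤ ((⌊2 * y⌋₊ - 0 : ℕ) : ℝ) := by exact_mod_cast h1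
      _ ≤ 2 * y := by simpa using Nat.floor_le (by linarith : (0 : ℝ) ≤ 2 * y)
  calc ∑ p ∈ S, 1 / (p : ℝ) ^ 2 ≤ ∑ p ∈ S, 1 / y ^ 2 := by
        refine Finset.sum_le_sum fun p hp => ?_
        obtain ⟨_, h2, _⟩ := hS p hp
        exact one_div_le_one_div_of_le (by positivity) (pow_le_pow_left₀ hy0.le h2 2)
    _ = (S.card : ℝ) * (1 / y ^ 2) := by rw [Finset.sum_const, nsmul_eq_mul]
    _ ≤ (2 * y) * (1 / y ^ 2) := mul_le_mul_of_nonneg_right hcard (by positivity)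
    _ = 2 / y := by field_simp

theorem hLSC (hT : StTRF) (hM : StML) : StLSC := by
  intro m hm
  obtain ⟨C, hC, hML⟩ := hM
  refine ⟨C * (4 ^ m + 256 * 2 ^ m) * (m : ℝ) ^ m + 1, by positivity, ?_⟩
  intro N y δ S E f hf ψ hN hy hNy hδ hS hE hdist hbig
  have hy0 : 0 < y := by linarith
  set X : ℕ := ⌊(2 * y) ^ m⌋₊ with hXdef
  have hX : ∀ t ∈ TT S m, ∏ i, t i ∈ Ioc 0 X := by
    intro t ht
    have h1 : ∀ i, t i ∈ S := Fintype.mem_piFinset.1 ht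
    refine Finset.mem_Ioc.2 ⟨Finset.prod_pos fun i _ => (hS _ (h1 i)).1.pos, Nat.le_floor ?_⟩
    rw [Nat.cast_prod]
    calc ∏ i, ((t i : ℕ) : ℝ) ≤ ∏ _i : Fin m, (2 * y) :=
          Finset.prod_le_prod (fun i _ => Nat.cast_nonneg _) (fun i _ => (hS _ (h1 i)).2.2.le)
      _ = (2 * y) ^ m := by simp
  set a : ℕ → ℂ := fun M => ((cf S m M : ℝ) : ℂ) with hadef
  set G : (ℕ → ℂ) → ℝ := fun x => ‖∑ M ∈ Ioc 0 (0 + X), a M * x M‖ ^ 2 with hGdef
  have hG0 : ∀ x, 0 ≤ G x := fun x => by positivity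
  have h1 := hT E f hf ψ (16 * N ^ 2) hE hdist G hG0
  have h2 := hML (16 * N ^ 2) X 0 a
  have h3 : ∑ r ∈ Icc 1 (16 * N ^ 2), SP G r ≤
      ∑ r ∈ Icc (1 : ℕ) (16 * N ^ 2), ((r : ℕ) : ℝ) / Nat.totient r * SP G r := by
    refine Finset.sum_le_sum fun r hr => ?_
    have hr1 := (Finset.mem_Icc.1 hr).1
    have ht : (0 : ℝ) < Nat.totient r := by exact_mod_cast Nat.totient_pos.2 hr1
    have hq : 1 ≤ (r : ℝ) / Nat.totient r := by
      rw [one_le_div ht]; exact_mod_cast Nat.totient_le r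
    have := SP_nonneg G hG0 r
    nlinarith
  have h4 : ∑ M ∈ Ioc 0 (0 + X), ‖a M‖ ^ 2 = ∑ M ∈ Ioc 0 X, cf S m M ^ 2 := by
    rw [Nat.zero_add]
    refine Finset.sum_congr rfl fun M _ => ?_
    simp only [hadef, Complex.norm_real, Real.norm_eq_abs, sq_abs]
  have h5 := sq_sum S m X y hy hS hX
  have h6 : ∀ n ∈ E, δ ^ (2 * m) ≤ G (fun k => ψ n (k : ZMod (f n))) := by
    intro n hn
    have he := expand S m X (fun k => ψ n (k : ZMod (f n))) (by simp) (fun a b => by simp) hX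
    have : G (fun k => ψ n (k : ZMod (f n))) = ‖(∑ p ∈ S, ψ n (p : ZMod (f n)) / p) ^ m‖ ^ 2 := by
      simp only [hGdef, Nat.zero_add]
      rw [he]
    rw [this, norm_pow, ← pow_mul, mul_comm m 2]
    exact pow_le_pow_left₀ hδ.le (hbig n hn) _
  have h7 : (E.card : ℝ) * δ ^ (2 * m) ≤ ∑ n ∈ E, G (fun k => ψ n (k : ZMod (f n))) := by
    rw [← nsmul_eq_mul]
    exact Finset.card_nsmul_le_sum _ _ _ h6
  have hXle : (X : ℝ) ≤ (2 * y) ^ m := Nat.floor_le (by positivity)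
  have hQ : (((16 * N ^ 2 : ℕ) : ℝ)) ^ 2 ≤ 256 * y ^ m := by
    push_cast
    nlinarith [hNy]
  have h8 : C * ((X : ℝ) + ((16 * N ^ 2 : ℕ) : ℝ) ^ 2) * ∑ M ∈ Ioc 0 (0 + X), ‖a M‖ ^ 2 ≤
      C * (4 ^ m + 256 * 2 ^ m) * (m : ℝ) ^ m := by
    rw [h4]
    have hb : (X : ℝ) + ((16 * N ^ 2 : ℕ) : ℝ) ^ 2 ≤ (2 * y) ^ m + 256 * y ^ m := add_le_add hXle hQ
    calc C * ((X : ℝ) + ((16 * N ^ 2 : ℕ) : ℝ) ^ 2) * ∑ M ∈ Ioc 0 X, cf S m M ^ 2
        ≤ C * ((2 * y) ^ m + 256 * y ^ m) * ((m : ℝ) ^ m * (2 / y) ^ m) := by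
          refine mul_le_mul (mul_le_mul_of_nonneg_left hb hC.le) h5
            (Finset.sum_nonneg fun M _ => sq_nonneg _) (by positivity)
      _ = C * (4 ^ m + 256 * 2 ^ m) * (m : ℝ) ^ m := by
          have e1 : (2 * y) ^ m * (2 / y) ^ m = 4 ^ m := by
            rw [← mul_pow]; congr 1; field_simp; norm_num
          have e2 : y ^ m * (2 / y) ^ m = 2 ^ m := by
            rw [← mul_pow]; congr 1; field_simp
          calc C * ((2 * y) ^ m + 256 * y ^ m) * ((m : ℝ) ^ m * (2 / y) ^ m)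
              = C * ((2 * y) ^ m * (2 / y) ^ m + 256 * (y ^ m * (2 / y) ^ m)) * (m : ℝ) ^ m := by ring
            _ = _ := by rw [e1, e2]
  linarith [h7, h1, h3, h2, h8]

end Pool.Agent.Helper70.KS
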